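import Pool.Agent.H937.QS.Stm

open scoped Matrix TensorProduct
open Pool.Agent.H937.QS
universe u
namespace Pool.Agent.H168.QS.NORM

open Polynomial

/-- the coefficients of the characteristic polynomial are in every subalgebra with the entries -/
theorem charpoly_mem {k M : Type u} [Field k] [Field M] [Algebra k M] {n : ℕ}
    (S : Subalgebra k M) (A : Matrix (Fin n) (Fin n) M) (h : ∀ i j, A i j ∈ S) (d : ℕ) :
    A.charpoly.coeff d ∈ S := by
  set A' : Matrix (Fin n) (Fin n) S := Matrix.of fun i j => ⟨A i j, h i j⟩ with hA'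
  have h1 : A'.map (algebraMap S M) = A := by
    ext i j
    rfl
  have h2 := Matrix.charpoly_map A' (algebraMap S M)
  rw [h1] at h2
  rw [h2, Polynomial.coeff_map]
  exact (A'.charpoly.coeff d).2

theorem t_NORM : S_NORM.{u} := by
  intro k B M _ _ _ _ _ n ev m hdet
  set N : Matrix (Fin n) (Fin n) M := Matrix.of fun q i => ev (m i) q with hN
  set S := Algebra.adjoin k {z | ∃ b i, z = (N⁻¹ *ᵥ ev b) i} with hS
  refine Algebra.adjoin_le ?_
  rintro x ⟨b, d, rfl⟩
  have hu : IsUnit N.det := isUnit_iff_ne_zero.2 hdet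
  have hent : ∀ i l, (N⁻¹ * Matrix.diagonal (ev b) * N) i l ∈ S := by
    intro i l
    have h1 : (N⁻¹ * Matrix.diagonal (ev b) * N) i l = (N⁻¹ *ᵥ ev (b * m l)) i := by
      rw [Matrix.mul_apply]
      show _ = ∑ q, N⁻¹ i q * ev (b * m l) q
      refine Finset.sum_congr rfl fun q _ => ?_
      rw [Matrix.mul_diagonal, map_mul, Pi.mul_apply, mul_assoc]
      rfl
    rw [h1]
    exact Algebra.subset_adjoin ⟨b * m l, i, rfl⟩
  have h2 : (N⁻¹ * Matrix.diagonal (ev b) * N).charpoly =
      ∏ q, (Polynomial.X - Polynomial.C (ev b q)) := by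
    rw [← Matrix.charpoly_diagonal]
    exact Matrix.charpoly_units_conj' (Matrix.nonsingInvUnit N hu) (Matrix.diagonal (ev b))
  rw [← h2]
  exact charpoly_mem S _ hent d

end Pool.Agent.H168.QS.NORM
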